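import Pool.Agent.MWP.Defs

/-!
# Block MWP: the rows

`p <+ w` means `List.Sublist`.  All patterns have length two; use `pair_append`, `pair_cons`,
`pair_flatMap`, `pair_filter`, `pair_reverse`, `pair_total`, `pair_mem` of `MWP/Basic.lean`.
`x` is before `y` in `w` means: not `[y,x] <+ w`.  A letter occurs at least twice in `w` iff
`[c,c] <+ w`.
-/

namespace Pool.Agent.MWP

open Pool.Agent.Helper14_MV Pool.Agent.Helper2_MV Pool.Agent.MWF

/-- **REG** (uses nothing).  Changing a region with the same letters, all of which occur before it.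
PROOF.  Expand both sides with `pair_append`.  A pattern inside `r` (`x, y ∈ r`) becomes `x ∈ c`
before `y ∈ r'`; a pattern from or to `r` only uses the membership in `r`. -/
def RegStmt : Prop :=
  ∀ P c m r r' Q : List ℕ, (∀ x, x ∈ r ↔ x ∈ r') → (∀ x ∈ r, x ∈ c) → ∀ x y : ℕ,
    ([x, y].Sublist (P ++ c ++ m ++ r ++ Q) ↔ [x, y].Sublist (P ++ c ++ m ++ r' ++ Q))

/-- **HEX** (uses nothing).  The height exists.
PROOF.  A chain has different letters (`Pairwise` gives `Nodup`), all in `v`, so its length is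
`≤ v.length` (`List.Nodup` and subset: `List.Subperm` or `Finset.card_le_card` of `toFinset`).  The
empty list is a chain.  Take the largest length (`Nat.findGreatest` or induction). -/
def HexStmt : Prop := ∀ v : List ℕ, ∃ h, Hgt v h

/-- **HGT** (uses nothing).  A chain inside a substituted word comes from a chain.
PROOF.  For `x ∈ T` choose `g x ∈ M` with `x ∈ f (g x)` (`List.mem_flatMap`), `T' = T.map g`.  Let `x`
be before `y` in `T`.  If `g x = g y = ζ`: `[ζ,ζ] <+ M` gives `[y,x] <+ M.flatMap f` (pair_flatMap),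
contradiction.  If `[g y, g x] <+ M`: again `[y,x] <+ M.flatMap f`.  (`List.pairwise_map`; use
`List.Pairwise.imp_of_mem`.) -/
def HgtStmt : Prop :=
  ∀ (f : ℕ → List ℕ) (P M Q T : List ℕ), (∀ ζ ∈ M, [ζ, ζ].Sublist M) →
    (∀ x ∈ T, x ∈ M.flatMap f) →
      T.Pairwise (fun x y => x ≠ y ∧ ¬ [y, x].Sublist (P ++ M.flatMap f ++ Q)) →
        ∃ T', Chn M T' ∧ T'.length = T.length

/-- **HTC** (uses nothing).  Heights of the gap words.
PROOF.  For `x ≠ y`: `[x,y] <+ dbl l` iff `[x,y] <+ l` (pair_flatMap), and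
`[x+7,y+7] <+ l.map (· + 7)` iff `[x,y] <+ l`.  So a chain of `V7 v` is the image of a chain of `v`
under `· + 7` (take `T.map (· - 7)`).  (2), (3): the letter `6` (or `5`) occurs at most once in the
chain; erase it (`T.filter (· ≠ 6)` has length `≥ T.length - 1` because `T` is `Nodup`), the rest is
a chain of `V7 v` (patterns of `V7 v` are patterns of the longer word).  (4), (5) clear: all
elements are `5` (`6`), `Nodup`.  (6): `T` = image of a longest chain of `v`; the patterns of `c0 v`: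
no letter of `V7 v` is before `5` or `2` in the sense of `[x,5] <+ c0 v`, `[x,2] <+ c0 v` (`x ≥ 7`),
not `[2,5] <+ c0 v`; not `[3,x]`, `[6,x]`, not `[6,3]`; for `x ≠ y` in `T`: `[y,x] <+ c0 v` iff
`[y,x] <+ V7 v`. -/
def HtcStmt : Prop :=
  ∀ (v : List ℕ) (h : ℕ), Hgt v h →
    (∀ T, Chn (V7 v) T → T.length ≤ h) ∧
    (∀ T, Chn (V7 v ++ [6, 6]) T → T.length ≤ h + 1) ∧
    (∀ T, Chn ([5, 5] ++ V7 v) T → T.length ≤ h + 1) ∧
    (∀ T, Chn [5, 5] T → T.length ≤ 1) ∧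
    (∀ T, Chn [6, 6] T → T.length ≤ 1) ∧
    ∃ T : List ℕ, T.length = h ∧ (∀ x ∈ T, x ∈ V7 v) ∧
      (5 :: 2 :: T).Pairwise (fun x y => x ≠ y ∧ ¬ [y, x].Sublist (c0 v)) ∧
      (T ++ [3, 6]).Pairwise (fun x y => x ≠ y ∧ ¬ [y, x].Sublist (c0 v))

/-- **MAP** (uses HGT, HTC).  What a substitution does with the four letters.
PROOF.  Let `w0 = p ++ (c0 v).flatMap f ++ α`, `w1 = γ ++ u.flatMap f ++ q`.
(1) For `i` in `1..4` all letters of `f i` are in `1..4` (they occur in `w1`: `m1`).  If `k < k'` are both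
in `f i`, there is a letter `z ≥ 5` of `c0 v` with `[z,k]`, `[k',z]` not patterns of `c0 v` (`z = 5` for
`k = 1, k' = 2`; a letter of `V7 v` (exists, `h ≥ 2`) if `k ≤ 2 < k'`; `z = 6` for `3, 4`).  `z` occurs in
`w0`, but not in `f i` (the letters of `f i` are `≤ 4`), so before or behind this copy of `f i` in
`w0`: `[z,k] <+ w0` or `[k',z] <+ w0`: contradiction to `pt`.  So `f i` is empty or has exactly one
letter `κ i ∈ 1..4`.
(2) `i < i'`, both not empty: `κ i ≤ κ i'` (else `[κ i, κ i'] <+ w0` with `κ i > κ i'`, not a pattern of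
`c0 v`).
(3) If all `κ` are in `{1,2}` or all in `{3,4}`: first or second alternative.  Else let `i` be the
largest letter with `f i ≠ []`, `κ i ≤ 2` and `i' > i` the next letter with `f i' ≠ []`; `κ i' ≥ 3` by
(2).  Let `M` be the part of `c0 v` between `i` and `i'` without the letters `≤ 4` (their `f` is empty):
`(1,2)`: `[5,5]`; `(3,4)`: `[6,6]`; `(2,3)`: `V7 v`; `(2,4)`: `V7 v ++ [6,6]`; `(1,3)`: `[5,5] ++ V7 v`;
`(1,4)`: `[5,5] ++ V7 v ++ [6,6]`.  All letters of `M` occur twice in `M`, and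
`w0 = P ++ f i ++ M.flatMap f ++ f i' ++ Q`.
FACT: a letter `x` of `c0 v` with `[x, κ i]`, `[κ i', x]` not patterns of `c0 v` and `x ≠ κ i, κ i'` occurs in
`w0`, but not in `P`, `f i`, `f i'`, `Q`, hence in `M.flatMap f`.
(4) The chain `T` of HTC (6) (length `h ≥ 2`) is in `M.flatMap f` by FACT; HGT (the order in `w0` of
different letters is the one of `c0 v`, `pt`) gives a chain of length `h` in `M`: so `(i,i')` is not
`(1,2)`, `(3,4)`.  So `i ≤ 2`, `i' ≥ 3`, and `κ 1, κ 2 ≤ 2`, `κ 3, κ 4 ≥ 3` (if defined) by (2).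
(5) `(2,3)`: if `κ 2 = 1`, the chain `5 :: 2 :: T` is in `M.flatMap f` (FACT), length `h + 2 > h`:
excluded, so `κ 2 = 2`; if `κ 3 = 4`, the chain `T ++ [3,6]`: excluded, `κ 3 = 3`.
`(2,4)`, `f 3 = []`: `κ 2 = 1` excluded (`h + 2 > h + 1`), `κ 4 = 4` excluded (`T ++ [3,6]`): `κ 2 = 2`,
`κ 4 = 3`.  `(1,3)`, `f 2 = []`: `κ 3 = 4` excluded: `κ 3 = 3`.  `(1,4)`: `f 2 = f 3 = []`.
All clauses of the third alternative follow. -/
def MapStmt : Prop :=
  ∀ (v : List ℕ) (h : ℕ), Hgt v h → 2 ≤ h → ∀ (f : ℕ → List ℕ) (p α γ q u : List ℕ),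
    (∀ c, c ∈ u ↔ (1 ≤ c ∧ c ≤ 4)) →
      Bas v (p ++ (c0 v).flatMap f ++ α) (γ ++ u.flatMap f ++ q) → Good f

/-- **CMB** (uses nothing).  The steps keep the conditions on the second block.
PROOF.  `o = false`.  First alternative of `Good`: the letters `3, 4` do not occur in the `f c`; the
patterns `[4,2]`, `[4,1]`, `[3,1]` of `γ ++ .. ++ q` only use the membership in the middle part, which
is the same for all four words.  Second alternative: the same with the letters `1, 2`.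
Third alternative.  (1) `Cb` is about the patterns `[4,2]`, `[4,1]`; `f 3` only contains `3`, so it can
be deleted: `2,4,1` against `2,4,1`.  (3) `4,2,1` against `4,1,2`: `f 1`, `f 2` contain only `1, 2`.
(4) `Cc`: patterns `[3,1]`, `[4,1]`; `f 2` can be deleted: `4,1,3` against `4,1,3`.  (2) `Cc`: `3,4,1`
against `4,3,1`, and `f 3`, `f 4` contain only `3, 4`.
(2) `Ck`: patterns `[4,2]`, `[3,1]`, `[4,1]` in `W = γ f2 f3 f4 f1 q` and `W' = γ f4 f2 f3 f1 q`.  If not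
(`4 ∈ f 4` and `2 ∈ f 2`), all three patterns are the same in `W` and `W'`.  If `4 ∈ f 4` and `2 ∈ f 2`: then
`f 3 ≠ []` by the last clause, `3 ∈ f 3`.  `[4,2] <+ W'`, so `Ck W'` is false.  If `Ck W`: `1 ∉ f 1`, `1 ∉ q`
(`3` is before), so `1` occurs only in `γ`; `[4,1] <+ W` gives `4 ∈ γ`, so `[4,2] <+ W`: contradiction.
`o = true`: `Bf true x y w` iff `Bf false x y w.reverse` (pair_reverse); the reverse of
`γ ++ u.reverse.flatMap f ++ q` is `q.reverse ++ u.flatMap (fun c => (f c).reverse) ++ γ.reverse`, and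
`Good` holds for `fun c => (f c).reverse`. -/
def CmbStmt : Prop :=
  ∀ (f : ℕ → List ℕ), Good f → ∀ (o : Bool) (γ q : List ℕ),
    (Cb o (γ ++ (ro o [2, 4, 1, 3]).flatMap f ++ q) ↔
      Cb o (γ ++ (ro o [2, 3, 4, 1]).flatMap f ++ q)) ∧
    (Cc o (γ ++ (ro o [2, 3, 4, 1]).flatMap f ++ q) ↔
      Cc o (γ ++ (ro o [4, 2, 3, 1]).flatMap f ++ q)) ∧
    (Ck o (γ ++ (ro o [2, 3, 4, 1]).flatMap f ++ q) ↔
      Ck o (γ ++ (ro o [4, 2, 3, 1]).flatMap f ++ q)) ∧
    (Cb o (γ ++ (ro o [4, 2, 3, 1]).flatMap f ++ q) ↔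
      Cb o (γ ++ (ro o [4, 1, 2, 3]).flatMap f ++ q)) ∧
    (Cc o (γ ++ (ro o [2, 4, 1, 3]).flatMap f ++ q) ↔
      Cc o (γ ++ (ro o [4, 1, 2, 3]).flatMap f ++ q))

/-- **LOC** (uses REG).  Where is the simple letter.
PROOF.  `0` is not in `w0`, `w1` (`m0`, `m1`), so it occurs exactly once in
`w = p ++ (Sw v u).flatMap f ++ q`, and a splitting `w = A ++ 0 :: B` with `0 ∉ A` is unique.
(A) `0 ∈ p`: `p = w0 ++ 0 :: p2`, `w1 = p2 ++ (Sw v u).flatMap f ++ q`; take `w0' = w0`,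
`w1' = p2 ++ (Sw v u').flatMap f ++ q`; `(Sw v u).flatMap f = (c0 v).flatMap f ++ f 0 ++ u.flatMap f`, so
REG applies (`c = (c0 v).flatMap f` contains all letters of `f 1, .., f 4`); the letters are the same.
(B) `0 ∈ q`: `q = q1 ++ 0 :: w1`, `w0 = p ++ (Sw v u).flatMap f ++ q1`; `w1' = w1`, `w0'` with `u'`; `m0`,
`pt`, `tw` by REG (also for `x = y`) and equality of the letters.  First alternative.
(C) `0 ∈ f c` for some `c ∈ Sw v u`: if `c ≠ 0`, then `[c,c] <+ Sw v u` (`c ≤ 4`: once in `c0 v`, once in `u`;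
`c ≥ 5`: twice in `c0 v`), so `[0,0] <+ w`, contradiction.  So `c = 0`, `f 0 = α ++ 0 :: γ`; second
alternative; `Bas v w0 w1'` because `u` and `u'` have the same letters. -/
def LocStmt : Prop :=
  ∀ (v u u' : List ℕ) (f : ℕ → List ℕ) (p q w0 w1 : List ℕ),
    (∀ c, c ∈ u ↔ (1 ≤ c ∧ c ≤ 4)) → (∀ c, c ∈ u' ↔ (1 ≤ c ∧ c ≤ 4)) → Bas v w0 w1 →
      p ++ (Sw v u).flatMap f ++ q = w0 ++ 0 :: w1 →
        ∃ w0' w1', p ++ (Sw v u').flatMap f ++ q = w0' ++ 0 :: w1' ∧ Bas v w0' w1' ∧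
          ((∀ x y, [x, y].Sublist w1' ↔ [x, y].Sublist w1) ∨
            ∃ α γ, w0 = p ++ (c0 v).flatMap f ++ α ∧ w1 = γ ++ u.flatMap f ++ q ∧
              w1' = γ ++ u'.flatMap f ++ q)

/-- **CLS** (uses MAP, CMB, LOC).  The five pairs are in the congruences `gaml`.
PROOF.  `RR_gaml`: for `f, p, q` show `KS v C (p ++ (Sw v u).flatMap f ++ q)` iff the same with `u'`; by
symmetry one implication.  From `KS` take `w0, w1`; LOC gives `w0', w1'`.  First alternative of LOC: `C`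
(a condition on patterns) goes over.  Second: MAP gives `Good f`, CMB gives the claim.  (`ro o u` has
the letters `1..4`.) -/
def ClsStmt : Prop :=
  ∀ (v : List ℕ) (h : ℕ), Hgt v h → 2 ≤ h → ∀ o : Bool,
    RR (gaml (KS v (Cb o))) (Sw v (ro o [2, 4, 1, 3])) (Sw v (ro o [2, 3, 4, 1])) ∧
    RR (gaml (KS v (Cc o))) (Sw v (ro o [2, 3, 4, 1])) (Sw v (ro o [4, 2, 3, 1])) ∧
    RR (gaml (KS v (Ck o))) (Sw v (ro o [2, 3, 4, 1])) (Sw v (ro o [4, 2, 3, 1])) ∧
    RR (gaml (KS v (Cb o))) (Sw v (ro o [4, 2, 3, 1])) (Sw v (ro o [4, 1, 2, 3])) ∧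
    RR (gaml (KS v (Cc o))) (Sw v (ro o [2, 4, 1, 3])) (Sw v (ro o [4, 1, 2, 3]))

/-- **ISO** (uses nothing).  Related words have the same letters and the same multiple letters.
PROOF.  Keep only the letter `c` (`RR.filter`): `c^i ≈ c^j` with `i`, `j` the numbers of occurrences;
rename `c` to `0`.  By `x² ≈ x³` we have `x^i ≈ x^2` for `i ≥ 2`.  `i ≥ 2`, `j = 1`: `x² ≈ x`; `i ≥ 2`, `j = 0`:
`x² ≈ 1`, so `x³ ≈ x`, `x ≈ x²`; `i = 1`, `j = 0`: `x ≈ 1`, `x² ≈ x`: all excluded by `Ap`. -/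
def IsoStmt : Prop :=
  ∀ β : FIC, Ap β → ∀ u v : List ℕ, RR β u v → ∀ c,
    (c ∈ u ↔ c ∈ v) ∧ ([c, c].Sublist u ↔ [c, c].Sublist v)

/-- **DB1** (uses nothing).  Multiple letters can be doubled.
PROOF.  `bet` with `0 ↦ [c]`, `1 ↦ A`: `c A c ≈ c c A c c`.  For one letter `c` with at least two
occurrences: go through the neighbouring occurrences from left to right, each time doubling the
pair (`c^i` with `i ≥ 2` is `≈ c^2`): every occurrence becomes `c c`.  Formally: for a fixed letter `c` let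
`dc w` double the letter `c` only; show `RR β w (dc w)` if `[c,c] <+ w` (write `w = A0 c A1 c .. c Ak`, `c ∉ Ai`,
induction on `k` with the statement `c A1 c .. c Ak ≈ c c A1 c c .. c c Ak` for `k ≥ 2`).  Then do this for all
the letters of `w` different from `0` one after the other (doubling other letters keeps
`[c,c] <+ w`); the composition of all `dc` is `d0` (compare with `flatMap`). -/
def Db1Stmt : Prop :=
  ∀ β : FIC, Ap β → RR β [0, 1, 0] [0, 0, 1, 0, 0] → ∀ w : List ℕ,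
    (∀ c ∈ w, c ≠ 0 → [c, c].Sublist w) → RR β w (d0 w)

/-- **GE1** (uses DB1).  Three identities which are not in `β`.
PROOF.  (3) If `dbl [0,1] ≈ dbl [0,1,0]`, append `[2,0,0]`: `x²y²tx² ≈ x²y²x²tx²`; both sides are the doubled
forms (DB1 after exchanging the names `0` and `2`, or directly `bet`: `x A x ≈ x²Ax²`) of
`x y y t x` and `x y y x t x`: contradiction to `e0`.  (2) If `dbl [1,0] ≈ dbl [0,1,0]`, exchange `0` and
`1`: `dbl [0,1] ≈ dbl [1,0,1] ≈ dbl [0,1,0]` (`sato`): (3).  (1) If `[1,1,0,2,0] ≈ [0,1,1,0,2,0]`: delete `2`: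
`[1,1,0,0] ≈ [0,1,1,0,0]`, and the right side is `≈ dbl [0,1,0]` (`bet`, `x² ≈ x³`): (2). -/
def Ge1Stmt : Prop :=
  ∀ β : FIC, Bt β → ¬ RR β [1, 1, 0, 2, 0] [0, 1, 1, 0, 2, 0] ∧
    ¬ RR β (dbl [1, 0]) (dbl [0, 1, 0]) ∧ ¬ RR β (dbl [0, 1]) (dbl [0, 1, 0])

/-- **EGX** (uses ISO, GE1).  A multiple letter stays in its blocks.
PROOF.  Let `c ∈ w1'`, `c ∉ w1` (the other cases are the same or symmetric).  Then `c` is at least twice in
`w0`.  Keep `0` and `c`, rename `c ↦ 0`, `0 ↦ 1`: `x^p t ≈ x^i t x^j`, `p ≥ 2`, `j ≥ 1`.  Multiply by `x²` on the left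
and use `x² ≈ x³` and substitute `x ↦ x²`: `x² t ≈ x² t x²`.  Put `t = y²` (`1 ↦ [1,1]`): `dbl [0,1] ≈ dbl [0,1,0]`:
contradiction to GE1 (3).  Let `c ∈ w0'`, `c ∉ w0`: `t x^p ≈ x^i t x^j`, `i ≥ 1`, `p ≥ 2`: multiply by `x²` on the
right, `x ↦ x²`: `t x² ≈ x² t x²`, `t = y²`: `dbl [1,0] ≈ dbl [0,1,0]`: GE1 (2).  The converse implications:
exchange the two words (`c` is multiple in both by ISO). -/
def EgxStmt : Prop :=
  ∀ β : FIC, Bt β → ∀ w0 w1 w0' w1' : List ℕ, 0 ∉ w0 → 0 ∉ w1 → 0 ∉ w0' → 0 ∉ w1' →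
    RR β (w0 ++ 0 :: w1) (w0' ++ 0 :: w1') → ∀ c, c ≠ 0 → [c, c].Sublist (w0 ++ 0 :: w1) →
      (c ∈ w0 ↔ c ∈ w0') ∧ (c ∈ w1 ↔ c ∈ w1')

/-- **ORD** (uses ISO, DB1, GE1, EGX).  The order against a local letter is kept.
PROOF.  By EGX and ISO `z, c ∈ w0'`, `z ∉ w1'`, `[z,z] <+ w0'`, and `c ∈ w1` iff `c ∈ w1'`.
(a) `[z,c] <+ w0`, not `[z,c] <+ w0'`.  Keep `c, z, 0` (and rename `c ↦ 0`, `z ↦ 1`, `0 ↦ 2` at the end).  The
second word is `c^i z^j 0 c^k`, the first `W 0 c^l` with `[z,c] <+ W`, and `k ≥ 1` iff `l ≥ 1`.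
If `k ≥ 1`: DB1 gives `dbl [c,z] 0 cc ≈ (dbl W) 0 cc` (`c^i` with `i ≥ 2` is `≈ c²`); multiply by `cc` on the
left: `dbl (c :: W) ≈ dbl [c,z,c]` by `sato`; so `dbl [c,z] 0 cc ≈ dbl [c,z,c] 0 cc`; undouble (`bet`):
`c z z 0 c ≈ c z z c 0 c`: contradiction to `e0`.  If `k = 0`: delete `0`: `dbl [c,z] ≈ dbl W`; multiply
by `cc` on the left: `dbl [c,z] ≈ dbl [c,z,c]`: GE1 (3).
(b) `[c,z] <+ w0`, not `[c,z] <+ w0'`: the second word is `z^i c^j 0 c^k`, the first `W 0 c^l`, `[c,z] <+ W`.  If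
`k ≥ 1`: DB1, and substitute `0 ↦ c c 0`: `dbl [z,c] 0 cc ≈ dbl (W ++ [c]) 0 cc ≈ dbl [c,z,c] 0 cc` (`sato`):
undouble: `z z c 0 c ≈ c z z c 0 c`: GE1 (1).  If `k = 0`: delete `0`, multiply by `cc` on the right:
GE1 (2). -/
def OrdStmt : Prop :=
  ∀ β : FIC, Bt β → ∀ w0 w1 w0' w1' : List ℕ, 0 ∉ w0 → 0 ∉ w1 → 0 ∉ w0' → 0 ∉ w1' →
    RR β (w0 ++ 0 :: w1) (w0' ++ 0 :: w1') → ∀ c z, c ≠ z → c ≠ 0 → z ≠ 0 →
      [z, z].Sublist w0 → z ∉ w1 → c ∈ w0 → [c, c].Sublist (w0 ++ 0 :: w1) →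
        ([c, z].Sublist w0 → [c, z].Sublist w0') ∧ ([z, c].Sublist w0 → [z, c].Sublist w0')

/-- **BAS** (uses ISO, EGX, ORD).  `β` keeps the kind of the two blocks.
PROOF.  `w = w0 ++ 0 :: w1`.  `0` occurs exactly once in `w` (`m0`, `m1`), so exactly once in `w'` (ISO):
`w' = w0' ++ 0 :: w1'` with `0 ∉ w0', w1'`.  All letters `≠ 0` of `w` occur at least twice (`1..4`: once in each
block; `≥ 5`: `tw`).  `m0`, `m1`: by ISO and EGX.  `tw`: `c ≥ 5` is twice in `w'` (ISO), not in `w1'`.  `pt`: for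
`c ≠ d` in `c0 v` with `c ≥ 5` or `d ≥ 5`: ORD for `(w, w')` and for `(w', w)` (the letter `≥ 5` is local in
both).  For `c, d ≤ 4`, `c < d`: there is a local `z` between: `[z,c]`, `[d,z]` are not patterns of `c0 v` (`z = 5`,
`z = 6` or a letter of `V7 v`), so not of `w0'`; `z ∈ w0'`; so `[d,c]` is not a pattern of `w0'` (`pair_trans`),
and `[c,d]` is one by `pair_total`; the same for `c0 v`.  If `c` or `d` is not in `c0 v`: both sides are
false. -/
def BasStmt : Prop :=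
  ∀ β : FIC, Bt β → ∀ v w0 w1 w' : List ℕ, v ≠ [] → Bas v w0 w1 → RR β (w0 ++ 0 :: w1) w' →
    ∃ w0' w1', w' = w0' ++ 0 :: w1' ∧ Bas v w0' w1'

/-- **VIS** (uses DB1).  A change of a pattern between the two sides gives `PV` or `QV`.
PROOF.  Keep the letters `l, r, 0` and all letters `≥ 7` (filter), DB1 (all letters `≠ 0` are multiple), and
rename `l ↦ 0`, `r ↦ 1`, `0 ↦ 2`, `c + 7 ↦ c + 3`.  The first block of both words becomes
`≈ dbl (0 :: v.map (· + 3) ++ [1])` by `sato` (the patterns are those of `c0 v` by `pt`: `l` before all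
letters `≥ 7` before `r`, and among the letters `≥ 7` those of `v`).  The second block becomes `dbl [0,1]` (if
`[r,l]` is not a pattern), `dbl [1,0]` (if `[l,r]` is not a pattern) or `dbl [0,1,0]` (both) by `sato`.
First claim: the second block of the first word is `dbl [0,1]`, of the other one `dbl [0,1,0]` (then this
is `PV`) or `dbl [1,0]`; in this case substitute `2 ↦ 2 0 0`: `.. 2 dbl [0,1] ≈ .. 2 dbl [0,1,0]`
(`x² ≈ x³`).  Second claim: `dbl [1,0]` against `dbl [0,1,0]` (`QV`) or `dbl [0,1]`; substitute `2 ↦ 2 1 1`: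
`.. 2 dbl [1,0] ≈ .. 2 dbl [1,0,1] ≈ .. 2 dbl [0,1,0]`. -/
def VisStmt : Prop :=
  ∀ β : FIC, Bt β → ∀ v w0 w1 w0' w1' : List ℕ, Bas v w0 w1 → Bas v w0' w1' →
    RR β (w0 ++ 0 :: w1) (w0' ++ 0 :: w1') → ∀ l r, (l = 1 ∨ l = 2) → (r = 3 ∨ r = 4) →
      ([r, l].Sublist w1' → ¬ [r, l].Sublist w1 → PV β v) ∧
      ([l, r].Sublist w1' → ¬ [l, r].Sublist w1 → QV β v)

/-- **KPR** (uses BAS, VIS).  `β` keeps the invariant sets.
PROOF.  `KS v C w`: take `w0, w1`; BAS gives `w0', w1'`.  By VIS for `(w, w')` and `(w', w)` the truth values of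
`Bf o 2 4`, `Bf o 1 3`, `Bf o 1 4` are the same for `w1` and `w1'` (`o = false`: else `PV β v`; `o = true`: else
`QV β v`). -/
def KprStmt : Prop :=
  ∀ β : FIC, Bt β → ∀ (v : List ℕ) (o : Bool), v ≠ [] → (if o then ¬ QV β v else ¬ PV β v) →
    ∀ w w' : List ℕ, RR β w w' →
      (KS v (Cb o) w → KS v (Cb o) w') ∧ (KS v (Cc o) w → KS v (Cc o) w') ∧
        (KS v (Ck o) w → KS v (Ck o) w')

/-- **PEN** (uses CLS, KPR).  The pentagon.
PROOF.  Let `o = false`, suppose `¬ PV β v` (for `QV`: `o = true`).  `v ≠ []` because `h ≥ 2`.  Let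
`τ = gaml (KS v (Cc o))`, `σ = gaml (KS v (Cb o))`, `ρ = FIC.inf (gaml (KS v (Ck o))) τ`; all are `≥ β` by
KPR (`le_gaml`, `FIC.le_inf`), `ρ ≤ τ`.  Let `s, s1, s2, t` be the words `Sw v (ro o ..)` for `[2,4,1,3]`,
`[2,3,4,1]`, `[4,2,3,1]`, `[4,1,2,3]`.  By CLS `s σ s1 ρ s2 σ t` and `s τ t`.  `MWF.pent` with
`P = KS v (Ck o)`: `ρ` keeps `P`; `σ` and `τ` together keep `P`, because `P w` iff `KS v (Cb o) w` and
`KS v (Cc o) w` (the splitting `w = w0 ++ 0 :: w1` with `0 ∉ w0` is unique).  `P s` holds (`Bas v (c0 v) u`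
for `u` with the letters `1..4`; `decide` for the patterns), `P t` does not (`Bf o 2 4` fails for
`ro o [4,1,2,3]`): contradiction. -/
def PenStmt : Prop :=
  ∀ β : FIC, Bt β → ModF β → ∀ (v : List ℕ) (h : ℕ), Hgt v h → 2 ≤ h → PV β v ∧ QV β v

/-- **ENL** (uses HEX).  Enlarging the gap word.
PROOF.  Let `m` be larger than all letters of `v`, `v' = v ++ [m, m+1]`.  `[m, m+1]` is a chain, so the height
(HEX) is `≥ 2`.  Delete the letters `m + 3`, `m + 4` in `PV β v'` (`RR.filter`; `dbl`, `map`). -/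
def EnlStmt : Prop :=
  ∀ v : List ℕ, ∃ (v' : List ℕ) (h : ℕ), Hgt v' h ∧ 2 ≤ h ∧
    ∀ β : FIC, (PV β v' → PV β v) ∧ (QV β v' → QV β v)

/-- **FIN** (uses DB1, PEN, ENL).  The result.
PROOF.  PEN and ENL give `PV β v` and `QV β v`, so with `C = dbl (0 :: v.map (· + 3) ++ [1])`:
`C 2 dbl [0,1] ≈ C 2 dbl [1,0]`.  The two sides of `DV` have the doubled forms `C' 2 dbl [0,1]`,
`C' 2 dbl [1,0]` (DB1 after renaming the simple letter `2` to `0`; all other letters are multiple), where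
`C'` is `C` with the letters of `v` written four times, `≈ C` by `x² ≈ x³` (or `sato`). -/
def FinStmt : Prop := ∀ β : FIC, Bt β → ModF β → ∀ v : List ℕ, DV β v

end Pool.Agent.MWP
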