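import Pool.Agent.MWF.Defs

/-!
# Patterns of length two (basic lemmas)
-/

namespace Pool.Agent.MWP

open Pool.Agent.Helper14_MV Pool.Agent.Helper2_MV Pool.Agent.MWF

theorem pair_append {x y : ℕ} {A B : List ℕ} :
    [x, y].Sublist (A ++ B) ↔ [x, y].Sublist A ∨ (x ∈ A ∧ y ∈ B) ∨ [x, y].Sublist B := by
  rw [List.sublist_append_iff]
  constructor
  · rintro ⟨l1, l2, h, h1, h2⟩
    rcases l1 with _ | ⟨a, l1⟩
    · rw [List.nil_append] at h
      subst h
      exact Or.inr (Or.inr h2)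
    · rcases l1 with _ | ⟨b, l1⟩
      · simp only [List.cons_append, List.nil_append, List.cons.injEq] at h
        obtain ⟨rfl, rfl⟩ := h
        exact Or.inr (Or.inl ⟨List.singleton_sublist.1 h1, List.singleton_sublist.1 h2⟩)
      · simp only [List.cons_append, List.cons.injEq] at h
        obtain ⟨rfl, rfl, h⟩ := h
        have h3 := List.append_eq_nil_iff.1 h.symm
        obtain ⟨rfl, rfl⟩ := h3
        exact Or.inl h1
  · rintro (h | ⟨h1, h2⟩ | h)
    · exact ⟨[x, y], [], by simp, h, List.nil_sublist _⟩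
    · exact ⟨[x], [y], rfl, List.singleton_sublist.2 h1, List.singleton_sublist.2 h2⟩
    · exact ⟨[], [x, y], rfl, List.nil_sublist _, h⟩

theorem pair_cons {x y c : ℕ} {B : List ℕ} :
    [x, y].Sublist (c :: B) ↔ (x = c ∧ y ∈ B) ∨ [x, y].Sublist B := by
  have h : c :: B = [c] ++ B := rfl
  rw [h, pair_append]
  constructor
  · rintro (h | ⟨h1, h2⟩ | h)
    · have h3 := h.length_le
      simp at h3
    · exact Or.inl ⟨List.mem_singleton.1 h1, h2⟩
    · exact Or.inr h
  · rintro (⟨h1, h2⟩ | h)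
    · exact Or.inr (Or.inl ⟨List.mem_singleton.2 h1, h2⟩)
    · exact Or.inr (Or.inr h)

theorem pair_nil {x y : ℕ} : ¬ [x, y].Sublist ([] : List ℕ) := by
  intro h
  have := h.length_le
  simp at this

theorem pair_flatMap {x y : ℕ} {l : List ℕ} {f : ℕ → List ℕ} :
    [x, y].Sublist (l.flatMap f) ↔
      (∃ c ∈ l, [x, y].Sublist (f c)) ∨ ∃ c d, [c, d].Sublist l ∧ x ∈ f c ∧ y ∈ f d := by
  induction l with
  | nil =>
    simp only [List.flatMap_nil, List.not_mem_nil, false_and, exists_false, false_or]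
    constructor
    · intro h; exact absurd h pair_nil
    · rintro ⟨c, d, h, _⟩; exact absurd h pair_nil
  | cons a l ih =>
    rw [List.flatMap_cons, pair_append, ih]
    constructor
    · rintro (h | ⟨h1, h2⟩ | (⟨c, hc, h⟩ | ⟨c, d, h, h1, h2⟩))
      · exact Or.inl ⟨a, List.mem_cons_self, h⟩
      · obtain ⟨d, hd, h3⟩ := List.mem_flatMap.1 h2
        exact Or.inr ⟨a, d, pair_cons.2 (Or.inl ⟨rfl, hd⟩), h1, h3⟩
      · exact Or.inl ⟨c, List.mem_cons_of_mem _ hc, h⟩
      · exact Or.inr ⟨c, d, pair_cons.2 (Or.inr h), h1, h2⟩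
    · rintro (⟨c, hc, h⟩ | ⟨c, d, h, h1, h2⟩)
      · rcases List.mem_cons.1 hc with rfl | hc
        · exact Or.inl h
        · exact Or.inr (Or.inr (Or.inl ⟨c, hc, h⟩))
      · rcases pair_cons.1 h with ⟨rfl, h3⟩ | h3
        · exact Or.inr (Or.inl ⟨h1, List.mem_flatMap.2 ⟨d, h3, h2⟩⟩)
        · exact Or.inr (Or.inr (Or.inr ⟨c, d, h3, h1, h2⟩))

theorem pair_reverse {x y : ℕ} {l : List ℕ} :
    [x, y].Sublist l.reverse ↔ [y, x].Sublist l := by
  have h : [x, y] = [y, x].reverse := rfl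
  rw [h, List.reverse_sublist]

theorem pair_filter {x y : ℕ} {l : List ℕ} {p : ℕ → Bool} :
    [x, y].Sublist (l.filter p) ↔ p x = true ∧ p y = true ∧ [x, y].Sublist l := by
  induction l with
  | nil =>
    simp only [List.filter_nil]
    constructor
    · intro h; exact absurd h pair_nil
    · rintro ⟨_, _, h⟩; exact h
  | cons a l ih =>
    by_cases ha : p a = true
    · rw [List.filter_cons_of_pos ha, pair_cons, ih, pair_cons, List.mem_filter]
      constructor
      · rintro (⟨rfl, h1, h2⟩ | ⟨h1, h2, h3⟩)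
        · exact ⟨ha, h2, Or.inl ⟨rfl, h1⟩⟩
        · exact ⟨h1, h2, Or.inr h3⟩
      · rintro ⟨h1, h2, (⟨rfl, h3⟩ | h3)⟩
        · exact Or.inl ⟨rfl, h3, h2⟩
        · exact Or.inr ⟨h1, h2, h3⟩
    · rw [List.filter_cons_of_neg ha, ih, pair_cons]
      constructor
      · rintro ⟨h1, h2, h3⟩
        exact ⟨h1, h2, Or.inr h3⟩
      · rintro ⟨h1, h2, (⟨rfl, h3⟩ | h3)⟩
        · exact absurd h1 ha
        · exact ⟨h1, h2, h3⟩

theorem pair_mem {x y : ℕ} {l : List ℕ} (h : [x, y].Sublist l) : x ∈ l ∧ y ∈ l :=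
  ⟨h.subset (by simp), h.subset (by simp)⟩

/-- two letters of a word occur in some order -/
theorem pair_total {x y : ℕ} {l : List ℕ} (hx : x ∈ l) (hy : y ∈ l) (h : x ≠ y) :
    [x, y].Sublist l ∨ [y, x].Sublist l := by
  induction l with
  | nil => simp at hx
  | cons a l ih =>
    rcases List.mem_cons.1 hx with rfl | hx'
    · rcases List.mem_cons.1 hy with rfl | hy'
      · exact absurd rfl h
      · exact Or.inl (pair_cons.2 (Or.inl ⟨rfl, hy'⟩))
    · rcases List.mem_cons.1 hy with rfl | hy'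
      · exact Or.inr (pair_cons.2 (Or.inl ⟨rfl, hx'⟩))
      · rcases ih hx' hy' with h1 | h1
        · exact Or.inl (pair_cons.2 (Or.inr h1))
        · exact Or.inr (pair_cons.2 (Or.inr h1))

/-- if `z` is present, `x` is before `z` and `z` is before `y`, then `x` is before `y` -/
theorem pair_trans {x y z : ℕ} {l : List ℕ} (hz : z ∈ l) (h1 : ¬ [z, x].Sublist l)
    (h2 : ¬ [y, z].Sublist l) : ¬ [y, x].Sublist l ∨ (y = x ∧ ¬ (x ∈ l)) ∨ z = x ∨ z = y := by
  by_cases hzx : z = x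
  · exact Or.inr (Or.inr (Or.inl hzx))
  by_cases hzy : z = y
  · exact Or.inr (Or.inr (Or.inr hzy))
  left
  intro h
  obtain ⟨A, B, rfl⟩ := List.append_of_mem hz
  rw [pair_append, pair_cons] at h h1 h2
  rcases h with h | ⟨h3, h4⟩ | (⟨h3, h4⟩ | h)
  · exact h2 (Or.inr (Or.inl ⟨(pair_mem h).1, by simp⟩))
  · exact h2 (Or.inr (Or.inl ⟨h3, by simp⟩))
  · exact hzy h3.symm
  · exact h1 (Or.inr (Or.inr (Or.inl ⟨rfl, (pair_mem h).2⟩)))

end Pool.Agent.MWP
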