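import Pool.Agent.MWP.Basic

/-!
# The four letter pentagon (definitions)

Block MWP (MP_23468a_al): `V` satisfies `x² ≈ x³`, `xyx ≈ x²yx²`, every word without simple letters
is determined by its content and its patterns of length two (SATO), and `V` does not satisfy
`xy²tx ≈ xy²xtx`.  If `L(V)` is modular then `x v y t x y ≈ x v y t y x` for every word `v` in which
every letter is doubled.

Letters: `0` = the simple letter `t`; `1, 2` = `b, a` (left side); `3, 4` = `A, B` (right side);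
`5, 6` = the pins; `c + 7` = the letters of the gap word.
-/

namespace Pool.Agent.MWP

open Pool.Agent.Helper14_MV Pool.Agent.Helper2_MV Pool.Agent.MWF

/-- hypotheses on the fully invariant congruence -/
structure Bt (β : FIC) : Prop where
  ap : Ap β
  bet : RR β [0, 1, 0] [0, 0, 1, 0, 0]
  sato : ∀ u v : List ℕ, (∀ a, a ∈ u ↔ a ∈ v) →
    (∀ a b, a ≠ b → ([a, b].Sublist u ↔ [a, b].Sublist v)) → RR β (dbl u) (dbl v)
  e0 : ¬ RR β [0, 1, 1, 2, 0] [0, 1, 1, 0, 2, 0]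

/-- the gap word -/
def V7 (v : List ℕ) : List ℕ := dbl (v.map (fun c => c + 7))

/-- the first block: `b z z a V A z' z' B` -/
def c0 (v : List ℕ) : List ℕ := [1, 5, 5, 2] ++ V7 v ++ [3, 6, 6, 4]

/-- the pinned word with the second block `u` -/
def Sw (v u : List ℕ) : List ℕ := c0 v ++ 0 :: u

/-- words with two blocks of the right kind -/
structure Bas (v w0 w1 : List ℕ) : Prop where
  m0 : ∀ c, c ∈ w0 ↔ c ∈ c0 v
  m1 : ∀ c, c ∈ w1 ↔ (1 ≤ c ∧ c ≤ 4)
  pt : ∀ c d, c ≠ d → ([c, d].Sublist w0 ↔ [c, d].Sublist (c0 v))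
  tw : ∀ c, 5 ≤ c → c ∈ w0 → [c, c].Sublist w0

/-- the invariant sets -/
def KS (v : List ℕ) (C : List ℕ → Prop) (w : List ℕ) : Prop :=
  ∃ w0 w1, w = w0 ++ 0 :: w1 ∧ Bas v w0 w1 ∧ C w1

/-- `o = false`: all `x` are before all `y`; `o = true`: all `x` are behind all `y` -/
def Bf (o : Bool) (x y : ℕ) (w : List ℕ) : Prop := ¬ (if o then [x, y] else [y, x]).Sublist w

/-- `a < B`, not `b < B` -/
def Cb (o : Bool) (w : List ℕ) : Prop := Bf o 2 4 w ∧ ¬ Bf o 1 4 w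

/-- `b < A`, not `b < B` -/
def Cc (o : Bool) (w : List ℕ) : Prop := Bf o 1 3 w ∧ ¬ Bf o 1 4 w

/-- both -/
def Ck (o : Bool) (w : List ℕ) : Prop := Bf o 2 4 w ∧ Bf o 1 3 w ∧ ¬ Bf o 1 4 w

/-- reversal for `o = true` -/
def ro (o : Bool) (u : List ℕ) : List ℕ := if o then u.reverse else u

/-- `T` is a chain of letters of `v`: the letters are different and each one is before the next
ones in `v` -/
def Chn (v T : List ℕ) : Prop :=
  (∀ x ∈ T, x ∈ v) ∧ T.Pairwise (fun x y => x ≠ y ∧ ¬ [y, x].Sublist v)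

/-- the maximal length of a chain is `h` -/
def Hgt (v : List ℕ) (h : ℕ) : Prop :=
  (∃ T, Chn v T ∧ T.length = h) ∧ ∀ T, Chn v T → T.length ≤ h

/-- only the letter `k` occurs -/
def Sg (l : List ℕ) (k : ℕ) : Prop := ∀ x ∈ l, x = k

/-- what a substitution can do with the four letters -/
def Good (f : ℕ → List ℕ) : Prop :=
  (∀ c, 1 ≤ c → c ≤ 4 → ∀ x ∈ f c, x = 1 ∨ x = 2) ∨
  (∀ c, 1 ≤ c → c ≤ 4 → ∀ x ∈ f c, x = 3 ∨ x = 4) ∨
  ((Sg (f 1) 1 ∨ Sg (f 1) 2) ∧ Sg (f 2) 2 ∧ Sg (f 3) 3 ∧ (Sg (f 4) 3 ∨ Sg (f 4) 4) ∧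
    (f 2 ≠ [] → f 3 = [] → Sg (f 4) 3))

/-- every letter except `0` doubled -/
def d0 (w : List ℕ) : List ℕ := w.flatMap (fun c => if c = 0 then [0] else [c, c])

/-- `x v y t xy ≈ x v y t xyx`, all letters doubled; `x, y, t = 0, 1, 2`, `v` moved by `3` -/
def PV (β : FIC) (v : List ℕ) : Prop :=
  RR β (dbl (0 :: (v.map (fun c => c + 3) ++ [1])) ++ 2 :: dbl [0, 1])
    (dbl (0 :: (v.map (fun c => c + 3) ++ [1])) ++ 2 :: dbl [0, 1, 0])

/-- `x v y t yx ≈ x v y t xyx`, all letters doubled -/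
def QV (β : FIC) (v : List ℕ) : Prop :=
  RR β (dbl (0 :: (v.map (fun c => c + 3) ++ [1])) ++ 2 :: dbl [1, 0])
    (dbl (0 :: (v.map (fun c => c + 3) ++ [1])) ++ 2 :: dbl [0, 1, 0])

/-- `x v y t xy ≈ x v y t yx`, the letters of `v` doubled -/
def DV (β : FIC) (v : List ℕ) : Prop :=
  RR β (0 :: (dbl (v.map (fun c => c + 3)) ++ [1, 2, 0, 1]))
    (0 :: (dbl (v.map (fun c => c + 3)) ++ [1, 2, 1, 0]))

end Pool.Agent.MWP
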